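import Mathlib

/-!
# Symmetric functions as polynomials in the power sums: definitions
-/

set_option autoImplicit false

namespace Pool.Agent.R569.SF

open MvPolynomial

/-- The truncation `f^(n)`, as a function on `ℝ^n`, of the symmetric function
`f = g(p_1, p_2, …)`; the variable `X k` of `g` stands for the power sum `p_{k+1}`. -/
noncomputable def trunc (g : MvPolynomial ℕ ℚ) (n : ℕ) (x : Fin n → ℝ) : ℝ :=
  aeval (fun k : ℕ => ∑ i, x i ^ (k + 1)) g

/-- `f = g(p_1, p_2, …)` is any-dimensional non-negative. -/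
def NonNeg (g : MvPolynomial ℕ ℚ) : Prop := ∀ (n : ℕ) (x : Fin n → ℝ), 0 ≤ trunc g n x

/-- `f = g(p_1, p_2, …)` is homogeneous of some degree `d`. -/
def Homog (g : MvPolynomial ℕ ℚ) : Prop :=
  ∃ d : ℕ, ∀ (n : ℕ) (x : Fin n → ℝ) (t : ℝ), trunc g n (t • x) = t ^ d * trunc g n x

/-- `f = g(p_1, p_2, …)` is any-dimensional positive: all truncations are positive everywhere or, when
`f` is homogeneous, all truncations are positive at all points `x ≠ 0`. -/
def Pos (g : MvPolynomial ℕ ℚ) : Prop :=
  (¬ Homog g → ∀ (n : ℕ) (x : Fin n → ℝ), 0 < trunc g n x) ∧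
  (Homog g → ∀ (n : ℕ) (x : Fin n → ℝ), x ≠ 0 → 0 < trunc g n x)

/-- The rational number `(u - v) / (w + 1)` coded by `(u, v, w)`. -/
def rat (c : ℕ × ℕ × ℕ) : ℚ := ((c.1 : ℚ) - c.2.1) / (c.2.2 + 1)

/-- The finite data of a polynomial in the power sums: a list of terms `(c, [k_1, …, k_r])`, each of
which stands for `rat c * p_{k_1 + 1} ⋯ p_{k_r + 1}`. -/
abbrev Inst : Type := List ((ℕ × ℕ × ℕ) × List ℕ)

/-- The polynomial given by the finite data. -/
noncomputable def poly (L : Inst) : MvPolynomial ℕ ℚ :=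
  (L.map fun t => C (rat t.1) * (t.2.map X).prod).sum

/-! ### every polynomial is given by some data -/

theorem rat_surj (a : ℚ) : ∃ c, rat c = a := by
  refine ⟨(a.num.toNat, (-a.num).toNat, a.den - 1), ?_⟩
  unfold rat
  have h1 : ((a.num.toNat : ℕ) : ℚ) - ((-a.num).toNat : ℕ) = a.num := by
    have : ((a.num.toNat : ℕ) : ℤ) - ((-a.num).toNat : ℕ) = a.num := by omega
    exact_mod_cast this
  have h2 : (((a.den - 1 : ℕ) : ℚ) + 1) = a.den := by
    have := a.pos
    have h3 : a.den - 1 + 1 = a.den := by omega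
    exact_mod_cast h3
  simp only
  rw [h1, h2, Rat.num_div_den]

theorem poly_append (L L' : Inst) : poly (L ++ L') = poly L + poly L' := by
  simp [poly]

theorem poly_cons (t : (ℕ × ℕ × ℕ) × List ℕ) (L : Inst) :
    poly (t :: L) = C (rat t.1) * (t.2.map X).prod + poly L := by
  simp [poly]

theorem poly_surj (g : MvPolynomial ℕ ℚ) : ∃ L, poly L = g := by
  induction g using MvPolynomial.induction_on with
  | C a =>
    obtain ⟨c, hc⟩ := rat_surj a
    exact ⟨[(c, [])], by simp [poly, hc]⟩
  | add p q hp hq =>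
    obtain ⟨L, rfl⟩ := hp
    obtain ⟨L', rfl⟩ := hq
    exact ⟨L ++ L', poly_append L L'⟩
  | mul_X p n hp =>
    obtain ⟨L, rfl⟩ := hp
    refine ⟨L.map fun t => (t.1, n :: t.2), ?_⟩
    induction L with
    | nil => simp [poly]
    | cons t L ih =>
      rw [List.map_cons, poly_cons, ih, poly_cons]
      simp only [List.map_cons, List.prod_cons]
      ring

/-- multiplication of all coefficients by a natural number -/
def scale (a : ℕ) (L : Inst) : Inst := L.map fun t => ((a * t.1.1, a * t.1.2.1, t.1.2.2), t.2)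

theorem poly_scale (a : ℕ) (L : Inst) : poly (scale a L) = C (a : ℚ) * poly L := by
  induction L with
  | nil => simp [poly, scale]
  | cons t L ih =>
    have h1 : scale a (t :: L) = ((a * t.1.1, a * t.1.2.1, t.1.2.2), t.2) :: scale a L := rfl
    have h2 : rat (a * t.1.1, a * t.1.2.1, t.1.2.2) = a * rat t.1 := by
      simp only [rat]
      push_cast
      ring
    rw [h1, poly_cons, ih, poly_cons, h2, C_mul]
    ring

theorem scale_computable (L : Inst) : Computable fun a : ℕ => scale a L := by
  have h : Primrec fun a : ℕ => scale a L := by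
    unfold scale
    refine Primrec.list_map (Primrec.const L) ?_
    have p1 : Primrec fun x : ℕ × ((ℕ × ℕ × ℕ) × List ℕ) => x.1 * x.2.1.1 :=
      Primrec.nat_mul.comp Primrec.fst (Primrec.fst.comp (Primrec.fst.comp Primrec.snd))
    have p2 : Primrec fun x : ℕ × ((ℕ × ℕ × ℕ) × List ℕ) => x.1 * x.2.1.2.1 :=
      Primrec.nat_mul.comp Primrec.fst
        (Primrec.fst.comp (Primrec.snd.comp (Primrec.fst.comp Primrec.snd)))
    have p3 : Primrec fun x : ℕ × ((ℕ × ℕ × ℕ) × List ℕ) => x.2.1.2.2 :=
      Primrec.snd.comp (Primrec.snd.comp (Primrec.fst.comp Primrec.snd))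
    exact ((p1.pair (p2.pair p3)).pair (Primrec.snd.comp Primrec.snd)).to₂
  exact h.to_comp

/-- the data of `A + a B + a^2` -/
def fam (A B : Inst) (a : ℕ) : Inst := A ++ (scale a B ++ [((a * a, 0, 0), [])])

theorem poly_fam (A B : Inst) (a : ℕ) :
    poly (fam A B a) = poly A + C (a : ℚ) * poly B + C ((a : ℚ) ^ 2) := by
  unfold fam
  rw [poly_append, poly_append, poly_scale]
  have : poly [((a * a, 0, 0), [])] = C ((a : ℚ) ^ 2) := by
    simp [poly, rat, sq]
  rw [this, add_assoc]

theorem fam_computable (A B : Inst) : Computable (fam A B) := by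
  unfold fam
  refine Computable.list_append.comp (Computable.const A)
    (Computable.list_append.comp (scale_computable B) ?_)
  have h : Primrec fun a : ℕ => ([((a * a, 0, 0), [])] : Inst) :=
    Primrec.list_cons.comp (((Primrec.nat_mul.comp Primrec.id Primrec.id).pair
      (Primrec.const (0, 0))).pair (Primrec.const [])) (Primrec.const [])
  exact h.to_comp

end Pool.Agent.R569.SF
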