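import Mathlib

/-!
# Polynomials close to indicator functions of integer points
-/

set_option autoImplicit false

namespace Pool.Agent.R569.SF

open Polynomial Finset

/-- the weight `1 + t^2` is at least one, powers are monotone -/
theorem pow_mono_one {s : ℝ} (hs : 1 ≤ s) {M N : ℕ} (h : M ≤ N) : s ^ M ≤ s ^ N :=
  pow_le_pow_right₀ hs h

/-- polynomial growth -/
theorem growth (P : ℝ[X]) : ∃ (C : ℝ) (M : ℕ), 0 ≤ C ∧ ∀ t : ℝ, |P.eval t| ≤ C * (1 + t ^ 2) ^ M := by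
  induction P using Polynomial.induction_on' with
  | add p q hp hq =>
    obtain ⟨C, M, hC, h1⟩ := hp
    obtain ⟨D, N, hD, h2⟩ := hq
    refine ⟨C + D, max M N, by positivity, fun t => ?_⟩
    have hs : (1 : ℝ) ≤ 1 + t ^ 2 := by nlinarith [sq_nonneg t]
    rw [eval_add]
    calc |p.eval t + q.eval t| ≤ |p.eval t| + |q.eval t| := abs_add_le _ _
      _ ≤ C * (1 + t ^ 2) ^ M + D * (1 + t ^ 2) ^ N := add_le_add (h1 t) (h2 t)
      _ ≤ C * (1 + t ^ 2) ^ max M N + D * (1 + t ^ 2) ^ max M N := by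
        gcongr
        · exact le_max_left _ _
        · exact le_max_right _ _
      _ = (C + D) * (1 + t ^ 2) ^ max M N := by ring
  | monomial n a =>
    refine ⟨|a|, n, abs_nonneg _, fun t => ?_⟩
    rw [eval_monomial, abs_mul, abs_pow]
    have h : |t| ≤ 1 + t ^ 2 := by
      rw [← sq_abs]
      nlinarith [sq_nonneg (|t| - 1), abs_nonneg t]
    gcongr

variable (k : ℕ)

/-- `X (X - 1) ⋯ (X - k)` -/
noncomputable def q : ℚ[X] := ∏ l ∈ range (k + 1), (X - C (l : ℚ))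

theorem q_eval (t : ℝ) : ((q k).map (algebraMap ℚ ℝ)).eval t = ∏ l ∈ range (k + 1), (t - l) := by
  unfold q
  rw [Polynomial.map_prod, eval_prod]
  simp

/-- a polynomial which is flat at all nodes, with value `1` at `i` and `0` at the other nodes -/
theorem exists_r (i : ℕ) (hi : i ≤ k) : ∃ r : ℚ[X], ∀ j ≤ k,
    (X - C (j : ℚ)) ^ 2 ∣ r - C (if j = i then 1 else 0) := by
  let l : ℚ[X] := Lagrange.basis (range (k + 1)) (fun n => (n : ℚ)) i
  have hinj : Set.InjOn (fun n : ℕ => (n : ℚ)) (range (k + 1)) := fun a _ b _ h => by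
    simpa using h
  refine ⟨C 3 * l ^ 2 - C 2 * l ^ 3, fun j hj => ?_⟩
  have hjm : j ∈ range (k + 1) := by simp; omega
  have him : i ∈ range (k + 1) := by simp; omega
  by_cases h : j = i
  · subst h
    have h1 : l.eval (j : ℚ) = 1 := Lagrange.eval_basis_self hinj hjm
    have h2 : (X - C (j : ℚ)) ∣ l - 1 := by
      rw [dvd_iff_isRoot, IsRoot.def, eval_sub, h1]
      simp
    obtain ⟨m, hm⟩ := h2
    refine ⟨-(m ^ 2 * (2 * l + 1)), ?_⟩
    have h3 : C (if j = j then (1 : ℚ) else 0) = 1 := by simp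
    rw [h3]
    have h4 : (C 3 : ℚ[X]) = 3 := rfl
    have h5 : (C 2 : ℚ[X]) = 2 := rfl
    rw [h4, h5]
    have h6 : 3 * l ^ 2 - 2 * l ^ 3 - 1 = -((l - 1) ^ 2 * (2 * l + 1)) := by ring
    rw [h6, hm]
    ring
  · have h1 : l.eval (j : ℚ) = 0 := Lagrange.eval_basis_of_ne (Ne.symm h) hjm
    have h2 : (X - C (j : ℚ)) ∣ l := by
      rw [dvd_iff_isRoot, IsRoot.def, h1]
    obtain ⟨m, hm⟩ := h2
    refine ⟨m ^ 2 * (3 - 2 * l), ?_⟩
    have h3 : C (if j = i then (1 : ℚ) else 0) = 0 := by simp [h]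
    rw [h3]
    have h4 : (C 3 : ℚ[X]) = 3 := rfl
    have h5 : (C 2 : ℚ[X]) = 2 := rfl
    rw [h4, h5]
    have h6 : 3 * l ^ 2 - 2 * l ^ 3 - 0 = l ^ 2 * (3 - 2 * l) := by ring
    rw [h6]
    conv_lhs => rw [hm]
    rw [hm]
    ring

theorem dist_round {t : ℝ} {l : ℤ} (h : round t ≠ l) : (1 : ℝ) / 4 ≤ (t - l) ^ 2 := by
  have h1 := abs_sub_round t
  have h2 : (1 : ℝ) ≤ |((round t - l : ℤ) : ℝ)| := by
    rw [← Int.cast_abs]
    exact_mod_cast Int.one_le_abs (sub_ne_zero.2 h)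
  have h3 : |((round t - l : ℤ) : ℝ)| ≤ |t - round t| + |t - l| := by
    push_cast
    have : ((round t : ℝ) - l) = -(t - round t) + (t - l) := by ring
    rw [this]
    calc |-(t - round t) + (t - l)| ≤ |-(t - round t)| + |t - l| := abs_add_le _ _
      _ = _ := by rw [abs_neg]
  have h4 : (1 : ℝ) / 2 ≤ |t - l| := by linarith
  have h5 : (t - l) ^ 2 = |t - l| ^ 2 := (sq_abs _).symm
  rw [h5]
  nlinarith

/-- product of at least `1/4`s -/
theorem prod_ge {ι : Type} (s : Finset ι) (f : ι → ℝ) (h : ∀ i ∈ s, 1 / 4 ≤ f i) :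
    (1 / 4 : ℝ) ^ s.card ≤ ∏ i ∈ s, f i := by
  rw [← Finset.prod_const]
  exact Finset.prod_le_prod (fun _ _ => by norm_num) h

theorem q_sq (t : ℝ) : ((q k).map (algebraMap ℚ ℝ)).eval t ^ 2 = ∏ l ∈ range (k + 1), (t - l) ^ 2 := by
  rw [q_eval, Finset.prod_pow]

/-- the key estimate -/
theorem key_estimate (i : ℕ) (r : ℚ[X])
    (hr : ∀ j ≤ k, (X - C (j : ℚ)) ^ 2 ∣ r - C (if j = i then 1 else 0)) (hi : i ≤ k) :
    ∃ (A : ℝ) (M : ℕ), 0 ≤ A ∧ ∀ t : ℝ,
      |(r.map (algebraMap ℚ ℝ)).eval t - (if round t = (i : ℤ) then 1 else 0)| ≤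
        A * (((q k).map (algebraMap ℚ ℝ)).eval t ^ 2 * (1 + t ^ 2) ^ M) := by
  -- the quotients
  choose! s hs using hr
  obtain ⟨A0, M0, hA0, h0⟩ := growth (r.map (algebraMap ℚ ℝ))
  have hg : ∀ j : ℕ, ∃ (A : ℝ) (M : ℕ), 0 ≤ A ∧ ∀ t : ℝ,
      |((s j).map (algebraMap ℚ ℝ)).eval t| ≤ A * (1 + t ^ 2) ^ M := fun j => growth _
  choose A M hA hM using hg
  let AA : ℝ := (A0 + ∑ j ∈ range (k + 1), A j) * 4 ^ (k + 1)
  let MM : ℕ := M0 + ∑ j ∈ range (k + 1), M j
  have hsum : ∀ j ∈ range (k + 1), A j ≤ A0 + ∑ j ∈ range (k + 1), A j := by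
    intro j hj
    have := Finset.single_le_sum (f := A) (fun j _ => hA j) hj
    linarith
  have hsumM : ∀ j ∈ range (k + 1), M j ≤ MM := by
    intro j hj
    have := Finset.single_le_sum (f := M) (fun j _ => Nat.zero_le _) hj
    simp only [MM]
    omega
  have hpos : 0 ≤ ∑ j ∈ range (k + 1), A j := Finset.sum_nonneg fun j _ => hA j
  refine ⟨AA, MM, by positivity, fun t => ?_⟩
  have hs1 : (1 : ℝ) ≤ 1 + t ^ 2 := by nlinarith [sq_nonneg t]
  rw [q_sq]
  by_cases hnode : ∃ j ≤ k, round t = (j : ℤ)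
  · obtain ⟨j, hj, hjt⟩ := hnode
    have hjm : j ∈ range (k + 1) := by simp; omega
    have h1 : (r.map (algebraMap ℚ ℝ)).eval t - (if round t = (i : ℤ) then 1 else 0) =
        (t - j) ^ 2 * ((s j).map (algebraMap ℚ ℝ)).eval t := by
      have h2 := congrArg (fun p : ℚ[X] => (p.map (algebraMap ℚ ℝ)).eval t) (hs j hj)
      simp only [Polynomial.map_sub, Polynomial.map_mul, Polynomial.map_pow, map_X, map_C,
        eval_sub, eval_mul, eval_pow, eval_X, eval_C] at h2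
      have h3 : (if round t = (i : ℤ) then (1 : ℝ) else 0) =
          (algebraMap ℚ ℝ) (if j = i then 1 else 0) := by
        rw [hjt]
        by_cases h : j = i
        · simp [h]
        · simp [h]
      rw [h3, h2]
      simp
    rw [h1, abs_mul, abs_of_nonneg (sq_nonneg _)]
    have h2 : ∏ l ∈ range (k + 1), (t - l) ^ 2 =
        (t - j) ^ 2 * ∏ l ∈ (range (k + 1)).erase j, (t - l) ^ 2 :=
      (Finset.mul_prod_erase _ _ hjm).symm
    have h3 : (1 / 4 : ℝ) ^ k ≤ ∏ l ∈ (range (k + 1)).erase j, (t - l) ^ 2 := by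
      have h4 := prod_ge ((range (k + 1)).erase j) (fun l : ℕ => (t - l) ^ 2) (by
        intro l hl
        have h5 : round t ≠ (l : ℤ) := by
          rw [hjt]
          intro h
          exact (Finset.mem_erase.1 hl).1 (by exact_mod_cast h.symm)
        have := dist_round h5
        simpa using this)
      rw [Finset.card_erase_of_mem hjm, Finset.card_range, Nat.add_sub_cancel] at h4
      exact h4
    rw [h2]
    have h4 : (1 : ℝ) ≤ 4 ^ (k + 1) * ∏ l ∈ (range (k + 1)).erase j, (t - l) ^ 2 := by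
      calc (1 : ℝ) ≤ 4 := by norm_num
        _ = 4 ^ (k + 1) * (1 / 4) ^ k := by
          rw [pow_succ, one_div, inv_pow]
          field_simp
        _ ≤ _ := by gcongr
    calc (t - j) ^ 2 * |((s j).map (algebraMap ℚ ℝ)).eval t|
        ≤ (t - j) ^ 2 * (A j * (1 + t ^ 2) ^ M j) := by
          gcongr
          exact hM j t
      _ ≤ (t - j) ^ 2 * ((A0 + ∑ j ∈ range (k + 1), A j) * (1 + t ^ 2) ^ MM) := by
          gcongr
          · exact hsum j hjm
          · exact hsumM j hjm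
      _ = ((t - j) ^ 2 * ((A0 + ∑ j ∈ range (k + 1), A j) * (1 + t ^ 2) ^ MM)) * 1 := by ring
      _ ≤ ((t - j) ^ 2 * ((A0 + ∑ j ∈ range (k + 1), A j) * (1 + t ^ 2) ^ MM)) *
          (4 ^ (k + 1) * ∏ l ∈ (range (k + 1)).erase j, (t - l) ^ 2) := by
          gcongr
      _ = AA * (((t - j) ^ 2 * ∏ l ∈ (range (k + 1)).erase j, (t - l) ^ 2) *
          (1 + t ^ 2) ^ MM) := by
          simp only [AA]
          ring
  · push Not at hnode
    have h1 : round t ≠ (i : ℤ) := hnode i hi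
    rw [if_neg h1, sub_zero]
    have h3 : (1 / 4 : ℝ) ^ (k + 1) ≤ ∏ l ∈ range (k + 1), (t - l) ^ 2 := by
      have h4 := prod_ge (range (k + 1)) (fun l : ℕ => (t - l) ^ 2) (by
        intro l hl
        have h5 : round t ≠ (l : ℤ) := hnode l (by simp at hl; omega)
        have := dist_round h5
        simpa using this)
      rw [Finset.card_range] at h4
      exact h4
    have h4 : (1 : ℝ) ≤ 4 ^ (k + 1) * ∏ l ∈ range (k + 1), (t - l) ^ 2 := by
      calc (1 : ℝ) = 4 ^ (k + 1) * (1 / 4) ^ (k + 1) := by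
            rw [one_div, inv_pow]
            field_simp
        _ ≤ _ := by gcongr
    calc |(r.map (algebraMap ℚ ℝ)).eval t| ≤ A0 * (1 + t ^ 2) ^ M0 := h0 t
      _ ≤ (A0 + ∑ j ∈ range (k + 1), A j) * (1 + t ^ 2) ^ MM := by
          gcongr
          · linarith
          · simp only [MM]; omega
      _ = ((A0 + ∑ j ∈ range (k + 1), A j) * (1 + t ^ 2) ^ MM) * 1 := by ring
      _ ≤ ((A0 + ∑ j ∈ range (k + 1), A j) * (1 + t ^ 2) ^ MM) *
          (4 ^ (k + 1) * ∏ l ∈ range (k + 1), (t - l) ^ 2) := by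
          gcongr
      _ = AA * ((∏ l ∈ range (k + 1), (t - l) ^ 2) * (1 + t ^ 2) ^ MM) := by
          simp only [AA]
          ring

end Pool.Agent.R569.SF
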