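import Pool.Agent.R569.SF.Defs
import Pool.Agent.R569.SF.Poly
import Pool.Agent.H761R3.Sys

/-!
# Systems of equations in natural numbers and any-dimensional non-negativity
-/

set_option autoImplicit false

namespace Pool.Agent.R569.SF

open MvPolynomial Pool.Agent.H761R3.Sys

/-! ### growth and Lipschitz bounds for polynomials in several variables -/

/-- `1 + ∑_{i < k} y_i^2` -/
noncomputable def Sq (k : ℕ) (y : ℕ → ℝ) : ℝ := 1 + ∑ i ∈ Finset.range k, y i ^ 2

theorem one_le_Sq (k : ℕ) (y : ℕ → ℝ) : 1 ≤ Sq k y := by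
  unfold Sq
  have : 0 ≤ ∑ i ∈ Finset.range k, y i ^ 2 := Finset.sum_nonneg fun _ _ => sq_nonneg _
  linarith

theorem growth' (k : ℕ) (D : MvPolynomial ℕ ℚ) : ∃ (A : ℝ) (M : ℕ), 0 ≤ A ∧
    ∀ y : ℕ → ℝ, (∀ i, k ≤ i → y i = 0) → |aeval y D| ≤ A * Sq k y ^ M := by
  induction D using MvPolynomial.induction_on with
  | C a =>
    refine ⟨|(a : ℝ)|, 0, abs_nonneg _, fun y _ => ?_⟩
    rw [aeval_C]
    simp
  | add p q hp hq =>
    obtain ⟨A, M, hA, h1⟩ := hp
    obtain ⟨B, N, hB, h2⟩ := hq
    refine ⟨A + B, max M N, by positivity, fun y hy => ?_⟩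
    have hs := one_le_Sq k y
    rw [map_add]
    calc |aeval y p + aeval y q| ≤ |aeval y p| + |aeval y q| := abs_add_le _ _
      _ ≤ A * Sq k y ^ M + B * Sq k y ^ N := add_le_add (h1 y hy) (h2 y hy)
      _ ≤ A * Sq k y ^ max M N + B * Sq k y ^ max M N := by
        gcongr
        · exact le_max_left _ _
        · exact le_max_right _ _
      _ = (A + B) * Sq k y ^ max M N := by ring
  | mul_X p n hp =>
    obtain ⟨A, M, hA, h1⟩ := hp
    refine ⟨A, M + 1, hA, fun y hy => ?_⟩
    have hs := one_le_Sq k y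
    rw [map_mul, aeval_X, abs_mul]
    have h2 : |y n| ≤ Sq k y := by
      by_cases hn : n < k
      · have h3 : y n ^ 2 ≤ ∑ i ∈ Finset.range k, y i ^ 2 :=
          Finset.single_le_sum (f := fun i => y i ^ 2) (fun _ _ => sq_nonneg _)
            (Finset.mem_range.2 hn)
        unfold Sq
        have h4 : |y n| ^ 2 = y n ^ 2 := sq_abs _
        nlinarith [sq_nonneg (|y n| - 1), abs_nonneg (y n)]
      · rw [hy n (by omega), abs_zero]
        linarith
    calc |aeval y p| * |y n| ≤ (A * Sq k y ^ M) * Sq k y := by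
          gcongr
          exact h1 y hy
      _ = A * Sq k y ^ (M + 1) := by ring

theorem lipschitz (k : ℕ) (D : MvPolynomial ℕ ℚ) (C0 : ℝ) (hC0 : 0 ≤ C0) :
    ∃ (A : ℝ) (M : ℕ), 0 ≤ A ∧ ∀ (y z : ℕ → ℝ) (e : ℝ), 0 ≤ e → e ≤ C0 →
      (∀ i, k ≤ i → y i = 0) → (∀ i, |y i - z i| ≤ e) →
      |aeval y D - aeval z D| ≤ A * e * Sq k y ^ M := by
  induction D using MvPolynomial.induction_on with
  | C a =>
    refine ⟨0, 0, le_rfl, fun y z e _ _ _ _ => ?_⟩
    rw [aeval_C, aeval_C]
    simp
  | add p q hp hq =>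
    obtain ⟨A, M, hA, h1⟩ := hp
    obtain ⟨B, N, hB, h2⟩ := hq
    refine ⟨A + B, max M N, by positivity, fun y z e he heC hy hyz => ?_⟩
    have hs := one_le_Sq k y
    rw [map_add, map_add]
    have h3 : aeval y p + aeval y q - (aeval z p + aeval z q) =
      (aeval y p - aeval z p) + (aeval y q - aeval z q) := by ring
    rw [h3]
    calc |(aeval y p - aeval z p) + (aeval y q - aeval z q)|
        ≤ |aeval y p - aeval z p| + |aeval y q - aeval z q| := abs_add_le _ _
      _ ≤ A * e * Sq k y ^ M + B * e * Sq k y ^ N :=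
          add_le_add (h1 y z e he heC hy hyz) (h2 y z e he heC hy hyz)
      _ ≤ A * e * Sq k y ^ max M N + B * e * Sq k y ^ max M N := by
        gcongr
        · exact le_max_left _ _
        · exact le_max_right _ _
      _ = (A + B) * e * Sq k y ^ max M N := by ring
  | mul_X p n hp =>
    obtain ⟨A, M, hA, h1⟩ := hp
    obtain ⟨G, N, hG, h2⟩ := growth' k p
    refine ⟨G + A * (1 + C0), max N (M + 1), by positivity, fun y z e he heC hy hyz => ?_⟩
    have hs := one_le_Sq k y
    rw [map_mul, map_mul, aeval_X, aeval_X]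
    have h3 : aeval y p * y n - aeval z p * z n =
      aeval y p * (y n - z n) + (aeval y p - aeval z p) * z n := by ring
    have h4 : |y n| ≤ Sq k y := by
      by_cases hn : n < k
      · have h3 : y n ^ 2 ≤ ∑ i ∈ Finset.range k, y i ^ 2 :=
          Finset.single_le_sum (f := fun i => y i ^ 2) (fun _ _ => sq_nonneg _)
            (Finset.mem_range.2 hn)
        unfold Sq
        have h4 : |y n| ^ 2 = y n ^ 2 := sq_abs _
        nlinarith [sq_nonneg (|y n| - 1), abs_nonneg (y n)]
      · rw [hy n (by omega), abs_zero]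
        linarith
    have h5 : |z n| ≤ (1 + C0) * Sq k y := by
      have h6 : |z n| ≤ |y n| + |y n - z n| := by
        have : z n = y n - (y n - z n) := by ring
        calc |z n| = |y n - (y n - z n)| := by rw [← this]
          _ ≤ |y n| + |y n - z n| := abs_sub _ _
      have h7 := hyz n
      nlinarith
    rw [h3]
    calc |aeval y p * (y n - z n) + (aeval y p - aeval z p) * z n|
        ≤ |aeval y p * (y n - z n)| + |(aeval y p - aeval z p) * z n| := abs_add_le _ _
      _ = |aeval y p| * |y n - z n| + |aeval y p - aeval z p| * |z n| := by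
          rw [abs_mul, abs_mul]
      _ ≤ (G * Sq k y ^ N) * e + (A * e * Sq k y ^ M) * ((1 + C0) * Sq k y) := by
          gcongr
          · exact h2 y hy
          · exact hyz n
          · exact h1 y z e he heC hy hyz
      _ = G * e * Sq k y ^ N + (A * (1 + C0)) * e * Sq k y ^ (M + 1) := by ring
      _ ≤ G * e * Sq k y ^ max N (M + 1) + (A * (1 + C0)) * e * Sq k y ^ max N (M + 1) := by
          gcongr
          · exact le_max_left _ _
          · exact le_max_right _ _
      _ = (G + A * (1 + C0)) * e * Sq k y ^ max N (M + 1) := by ring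

/-! ### linear combinations of power sums -/

/-- the linear combination of power sums given by a polynomial without constant term -/
noncomputable def lin (P : Polynomial ℚ) : MvPolynomial ℕ ℚ :=
  ∑ i ∈ Finset.range P.natDegree, C (P.coeff (i + 1)) * X i

theorem trunc_lin (P : Polynomial ℚ) (h0 : P.coeff 0 = 0) (n : ℕ) (x : Fin n → ℝ) :
    trunc (lin P) n x = ∑ j, (P.map (algebraMap ℚ ℝ)).eval (x j) := by
  unfold trunc lin
  rw [map_sum]
  simp only [map_mul, aeval_C, aeval_X]
  have h1 : ∀ t : ℝ, (P.map (algebraMap ℚ ℝ)).eval t =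
      ∑ i ∈ Finset.range P.natDegree, algebraMap ℚ ℝ (P.coeff (i + 1)) * t ^ (i + 1) := by
    intro t
    rw [Polynomial.eval_map, Polynomial.eval₂_eq_sum_range, Finset.sum_range_succ', h0]
    simp
  simp only [h1]
  rw [Finset.sum_comm]
  refine Finset.sum_congr rfl fun i _ => ?_
  rw [Finset.mul_sum]

/-- the defect of a constraint -/
noncomputable def defect : Con → MvPolynomial ℕ ℚ
  | .add i j l => X i + X j - X l
  | .one i => X i - 1
  | .mul i j l => X i * X j - X l

/-- the sum of the squares of the defects -/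
noncomputable def dsum (L : List Con) : MvPolynomial ℕ ℚ := (L.map fun c => defect c ^ 2).sum

theorem dsum_nonneg (L : List Con) (y : ℕ → ℝ) : 0 ≤ aeval y (dsum L) := by
  unfold dsum
  induction L with
  | nil => simp
  | cons c L ih =>
    rw [List.map_cons, List.sum_cons, map_add, map_pow]
    positivity

theorem dsum_zero (L : List Con) (y : ℕ → ℝ) (h : ∀ c ∈ L, aeval y (defect c) = 0) :
    aeval y (dsum L) = 0 := by
  unfold dsum
  induction L with
  | nil => simp
  | cons c L ih =>
    rw [List.map_cons, List.sum_cons, map_add, map_pow, h c (by simp),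
      ih fun c hc => h c (by simp [hc])]
    simp

theorem defect_int (c : Con) (N : ℕ → ℕ) :
    ∃ z : ℤ, aeval (fun i => (N i : ℝ)) (defect c) = z ∧ (z = 0 ↔ c.Holds N) := by
  cases c with
  | add i j l =>
    refine ⟨N i + N j - N l, by simp [defect], ?_⟩
    simp only [Con.Holds]
    omega
  | one i =>
    refine ⟨N i - 1, by simp [defect], ?_⟩
    simp only [Con.Holds]
    omega
  | mul i j l =>
    refine ⟨N i * N j - N l, by simp [defect], ?_⟩
    simp only [Con.Holds]
    rw [sub_eq_zero]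
    norm_cast

theorem dsum_int (L : List Con) (N : ℕ → ℕ) :
    ∃ z : ℤ, aeval (fun i => (N i : ℝ)) (dsum L) = z ∧ 0 ≤ z ∧
      (z = 0 ↔ ∀ c ∈ L, c.Holds N) := by
  unfold dsum
  induction L with
  | nil => exact ⟨0, by simp, le_rfl, by simp⟩
  | cons c L ih =>
    obtain ⟨z, h1, h2, h3⟩ := ih
    obtain ⟨w, h4, h5⟩ := defect_int c N
    refine ⟨w ^ 2 + z, ?_, by positivity, ?_⟩
    · rw [List.map_cons, List.sum_cons, map_add, map_pow, h1, h4]
      push_cast
      ring
    · rw [List.forall_mem_cons, ← h3, ← h5]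
      constructor
      · intro h
        have h6 : w ^ 2 = 0 := by nlinarith [sq_nonneg w]
        have h7 : w = 0 := by simpa using h6
        refine ⟨h7, ?_⟩
        rw [h7] at h
        simpa using h
      · rintro ⟨rfl, rfl⟩
        simp

theorem trunc_aeval (f : ℕ → MvPolynomial ℕ ℚ) (D : MvPolynomial ℕ ℚ) (n : ℕ) (x : Fin n → ℝ) :
    trunc (aeval f D) n x = aeval (fun i => trunc (f i) n x) D := by
  unfold trunc
  induction D using MvPolynomial.induction_on with
  | C a => simp
  | add p q hp hq => rw [map_add, map_add, hp, hq, map_add]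
  | mul_X p n hp => rw [map_mul, map_mul, hp, map_mul, aeval_X, aeval_X]

theorem eval_natCast_map' (P : Polynomial ℚ) (m : ℕ) :
    (P.map (algebraMap ℚ ℝ)).eval (m : ℝ) = algebraMap ℚ ℝ (P.eval (m : ℚ)) := by
  have h := Polynomial.eval_map_apply (algebraMap ℚ ℝ) (p := P) (m : ℚ)
  simpa using h

/-- The reduction: for a system `L` of constraints in `x_0, …, x_{k-1}` there are `A`, `B` such that
`A + a B + a^2` is `≥ 1/2` everywhere if the system has no solution with `x_0 = a`, and takes the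
value `-1/2` otherwise. -/
theorem reduction (k : ℕ) (L : List Con) (hk : 1 ≤ k) (hL : ∀ c ∈ L, c.Below k) :
    ∃ A B : MvPolynomial ℕ ℚ, ∀ a : ℕ,
      ((¬ ∃ x : ℕ → ℕ, x 0 = a ∧ ∀ c ∈ L, c.Holds x) → ∀ (n : ℕ) (x : Fin n → ℝ),
        1 / 2 ≤ trunc (A + C (a : ℚ) * B + C ((a : ℚ) ^ 2)) n x) ∧
      ((∃ x : ℕ → ℕ, x 0 = a ∧ ∀ c ∈ L, c.Holds x) → ∃ (n : ℕ) (x : Fin n → ℝ),
        trunc (A + C (a : ℚ) * B + C ((a : ℚ) ^ 2)) n x = -(1 / 2)) := by
  classical
  -- the polynomials `r_i`
  have hr : ∀ i : ℕ, ∃ r : Polynomial ℚ, i < k → ∀ j ≤ k,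
      (Polynomial.X - Polynomial.C (j : ℚ)) ^ 2 ∣ r - Polynomial.C (if j = i + 1 then 1 else 0) := by
    intro i
    by_cases hi : i < k
    · obtain ⟨r, hr⟩ := exists_r k (i + 1) (by omega)
      exact ⟨r, fun _ => hr⟩
    · exact ⟨0, fun h => absurd h hi⟩
  choose r hr using hr
  have hr0 : ∀ i < k, ∀ j ≤ k, (r i).eval (j : ℚ) = if j = i + 1 then 1 else 0 := by
    intro i hi j hj
    have h1 := (dvd_pow_self (Polynomial.X - Polynomial.C (j : ℚ)) two_ne_zero).trans (hr i hi j hj)
    rw [Polynomial.dvd_iff_isRoot, Polynomial.IsRoot.def, Polynomial.eval_sub,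
      Polynomial.eval_C] at h1
    linarith
  have hrc : ∀ i < k, (r i).coeff 0 = 0 := by
    intro i hi
    have := hr0 i hi 0 (by omega)
    rw [Polynomial.coeff_zero_eq_eval_zero]
    simpa using this
  -- the estimates
  have he : ∀ i : ℕ, ∃ (A : ℝ) (M : ℕ), 0 ≤ A ∧ (i < k → ∀ t : ℝ,
      |((r i).map (algebraMap ℚ ℝ)).eval t - (if round t = ((i + 1 : ℕ) : ℤ) then 1 else 0)| ≤
        A * (((q k).map (algebraMap ℚ ℝ)).eval t ^ 2 * (1 + t ^ 2) ^ M)) := by
    intro i
    by_cases hi : i < k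
    · obtain ⟨A, M, hA, h⟩ := key_estimate k (i + 1) (r i) (hr i hi) (by omega)
      exact ⟨A, M, hA, fun _ => h⟩
    · exact ⟨0, 0, le_rfl, fun h => absurd h hi⟩
  choose A0 M0 hA0 hM0 using he
  let A1 : ℝ := ∑ i ∈ Finset.range k, A0 i
  let M1 : ℕ := ∑ i ∈ Finset.range k, M0 i
  have hA1 : 0 ≤ A1 := Finset.sum_nonneg fun i _ => hA0 i
  -- the weight
  let w : Polynomial ℚ := q k ^ 2 * (1 + Polynomial.X ^ 2) ^ M1
  have hw : ∀ t : ℝ, (w.map (algebraMap ℚ ℝ)).eval t =
      ((q k).map (algebraMap ℚ ℝ)).eval t ^ 2 * (1 + t ^ 2) ^ M1 := by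
    intro t
    simp [w]
  have hwn : ∀ t : ℝ, 0 ≤ (w.map (algebraMap ℚ ℝ)).eval t := by
    intro t
    rw [hw]
    positivity
  have hq0 : ∀ j : ℕ, j ≤ k → ((q k).map (algebraMap ℚ ℝ)).eval (j : ℝ) = 0 := by
    intro j hj
    rw [q_eval]
    exact Finset.prod_eq_zero (Finset.mem_range.2 (by omega : j < k + 1)) (sub_self _)
  have hwc : w.coeff 0 = 0 := by
    rw [Polynomial.coeff_zero_eq_eval_zero]
    have : (q k).eval 0 = 0 := by
      unfold q
      rw [Polynomial.eval_prod]
      exact Finset.prod_eq_zero (Finset.mem_range.2 (Nat.succ_pos k)) (by simp)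
    simp [w, this]
  have hest : ∀ i < k, ∀ t : ℝ,
      |((r i).map (algebraMap ℚ ℝ)).eval t - (if round t = ((i + 1 : ℕ) : ℤ) then 1 else 0)| ≤
        A1 * (w.map (algebraMap ℚ ℝ)).eval t := by
    intro i hi t
    refine (hM0 i hi t).trans ?_
    rw [hw]
    have h1 : A0 i ≤ A1 := Finset.single_le_sum (f := A0) (fun i _ => hA0 i)
      (Finset.mem_range.2 hi)
    have h2 : M0 i ≤ M1 := Finset.single_le_sum (f := M0) (fun i _ => Nat.zero_le _)
      (Finset.mem_range.2 hi)
    have hs1 : (1 : ℝ) ≤ 1 + t ^ 2 := by nlinarith [sq_nonneg t]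
    gcongr
  -- the polynomials in the power sums
  let nn : ℕ → MvPolynomial ℕ ℚ := fun i => if i < k then lin (r i) else 0
  let D0 : MvPolynomial ℕ ℚ := dsum L + X 0 ^ 2
  obtain ⟨A2, M2, hA2, hlip⟩ := lipschitz k D0 A1 hA1
  obtain ⟨K0, hK0⟩ := exists_nat_ge (max 1 (A2 * A1))
  obtain ⟨K1, hK1⟩ := exists_nat_ge (2 * A1)
  let Lw : MvPolynomial ℕ ℚ := lin w
  let Sp : MvPolynomial ℕ ℚ := 1 + ∑ i ∈ Finset.range k, nn i ^ 2
  let A : MvPolynomial ℕ ℚ := aeval nn D0 - C (1 / 2) + C (K0 : ℚ) * (Lw * Sp ^ M2)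
  let B : MvPolynomial ℕ ℚ := -(C 2 * nn 0) + C (K1 : ℚ) * (Lw * Sp ^ M2)
  refine ⟨A, B, fun a => ?_⟩
  -- evaluation
  have hval : ∀ (n : ℕ) (x : Fin n → ℝ),
      trunc (A + C (a : ℚ) * B + C ((a : ℚ) ^ 2)) n x =
        aeval (fun i => trunc (nn i) n x) (dsum L) + (trunc (nn 0) n x - a) ^ 2 - 1 / 2 +
          (K0 + a * K1) * (trunc Lw n x * Sq k (fun i => trunc (nn i) n x) ^ M2) := by
    intro n x
    have hA : trunc A n x = trunc (aeval nn D0) n x - 1 / 2 +
        K0 * (trunc Lw n x * trunc Sp n x ^ M2) := by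
      simp only [A, trunc, map_add, map_sub, map_mul, map_pow, aeval_C, eq_ratCast]
      push_cast
      ring
    have hB : trunc B n x = -(2 * trunc (nn 0) n x) +
        K1 * (trunc Lw n x * trunc Sp n x ^ M2) := by
      simp only [B, trunc, map_add, map_neg, map_mul, map_pow, aeval_C, eq_ratCast]
      push_cast
      ring
    have hSp : trunc Sp n x = Sq k (fun i => trunc (nn i) n x) := by
      simp only [Sp, trunc, Sq, map_add, map_one, map_sum, map_pow]
    have hsum : trunc (A + C (a : ℚ) * B + C ((a : ℚ) ^ 2)) n x =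
        trunc A n x + a * trunc B n x + a ^ 2 := by
      simp only [trunc, map_add, map_mul, aeval_C, eq_ratCast]
      push_cast
      ring
    rw [hsum, hA, hB, hSp, trunc_aeval]
    simp only [D0, map_add, map_pow, aeval_X]
    ring
  have hnn : ∀ (n : ℕ) (x : Fin n → ℝ) (i : ℕ), i < k →
      trunc (nn i) n x = ∑ j, ((r i).map (algebraMap ℚ ℝ)).eval (x j) := by
    intro n x i hi
    have : nn i = lin (r i) := if_pos hi
    rw [this]
    exact trunc_lin _ (hrc i hi) n x
  have hnn0 : ∀ (n : ℕ) (x : Fin n → ℝ) (i : ℕ), k ≤ i → trunc (nn i) n x = 0 := by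
    intro n x i hi
    have : nn i = 0 := if_neg (by omega)
    rw [this]
    simp [trunc]
  have hLw : ∀ (n : ℕ) (x : Fin n → ℝ), trunc Lw n x = ∑ j, (w.map (algebraMap ℚ ℝ)).eval (x j) :=
    fun n x => trunc_lin _ hwc n x
  constructor
  · -- no solution
    intro hno n x
    rw [hval]
    let y : ℕ → ℝ := fun i => trunc (nn i) n x
    let lw : ℝ := trunc Lw n x
    have hlw0 : 0 ≤ lw := by
      change 0 ≤ trunc Lw n x
      rw [hLw]
      exact Finset.sum_nonneg fun j _ => hwn _
    have hS := one_le_Sq k y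
    have hSM : 1 ≤ Sq k y ^ M2 := one_le_pow₀ hS
    have hK0' : (1 : ℝ) ≤ K0 := (le_max_left _ _).trans hK0
    have hK0'' : A2 * A1 ≤ K0 := (le_max_right _ _).trans hK0
    have hd := dsum_nonneg L y
    have ha : (0 : ℝ) ≤ a := Nat.cast_nonneg a
    have hK1' : (0 : ℝ) ≤ K1 := Nat.cast_nonneg K1
    change 1 / 2 ≤ aeval y (dsum L) + (y 0 - a) ^ 2 - 1 / 2 + (K0 + a * K1) * (lw * Sq k y ^ M2)
    have hlS : 0 ≤ lw * Sq k y ^ M2 := mul_nonneg hlw0 (zero_le_one.trans hSM)
    by_cases hl : 1 < lw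
    · have h1 : 1 ≤ lw * Sq k y ^ M2 := by nlinarith
      have h2 : 0 ≤ a * (K1 : ℝ) := mul_nonneg ha hK1'
      nlinarith [sq_nonneg (y 0 - a)]
    · push Not at hl
      -- the integer point
      let N : ℕ → ℕ := fun i => if i < k then
        (Finset.univ.filter fun j : Fin n => round (x j) = ((i + 1 : ℕ) : ℤ)).card else 0
      have hN : ∀ i, |y i - (N i : ℝ)| ≤ A1 * lw := by
        intro i
        by_cases hi : i < k
        · have h1 : (N i : ℝ) = ∑ j : Fin n, (if round (x j) = ((i + 1 : ℕ) : ℤ) then (1 : ℝ)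
              else 0) := by
            have : N i = (Finset.univ.filter
              fun j : Fin n => round (x j) = ((i + 1 : ℕ) : ℤ)).card := if_pos hi
            rw [this, Finset.sum_ite]
            simp
          have h2 : y i = ∑ j, ((r i).map (algebraMap ℚ ℝ)).eval (x j) := hnn n x i hi
          have h3 : lw = ∑ j, (w.map (algebraMap ℚ ℝ)).eval (x j) := hLw n x
          rw [h1, h2, h3, ← Finset.sum_sub_distrib, Finset.mul_sum]
          refine (Finset.abs_sum_le_sum_abs _ _).trans ?_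
          exact Finset.sum_le_sum fun j _ => hest i hi (x j)
        · have h1 : y i = 0 := hnn0 n x i (by omega)
          have h2 : N i = 0 := if_neg hi
          rw [h1, h2]
          simp only [Nat.cast_zero, sub_zero, abs_zero]
          exact mul_nonneg hA1 hlw0
      have he0 : 0 ≤ A1 * lw := mul_nonneg hA1 hlw0
      have he1 : A1 * lw ≤ A1 := by nlinarith
      have h1 := hlip y (fun i => (N i : ℝ)) (A1 * lw) he0 he1 (fun i hi => hnn0 n x i hi) hN
      have h2 := hN 0
      obtain ⟨z, h3, h4, h5⟩ := dsum_int L N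
      -- the value at the integer point is at least one
      have h6 : (1 : ℝ) ≤ z + ((N 0 : ℝ) - a) ^ 2 := by
        have h7 : (1 : ℤ) ≤ z + ((N 0 : ℤ) - a) ^ 2 := by
          by_contra h8
          push Not at h8
          have h9 : 0 ≤ ((N 0 : ℤ) - a) ^ 2 := sq_nonneg _
          have h10 : z = 0 := by omega
          have h11 : ((N 0 : ℤ) - a) ^ 2 = 0 := by omega
          have h12 : ((N 0 : ℤ) - a) = 0 := by simpa using h11
          exact hno ⟨N, by omega, h5.1 h10⟩
        exact_mod_cast h7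
      have h7 : aeval y D0 = aeval y (dsum L) + y 0 ^ 2 := by simp [D0]
      have h8 : aeval (fun i => (N i : ℝ)) D0 = z + (N 0 : ℝ) ^ 2 := by simp [D0, h3]
      rw [h7, h8] at h1
      have h9 := (abs_le.1 h1).1
      have h10 := (abs_le.1 h2).2
      have h11 : A2 * (A1 * lw) * Sq k y ^ M2 ≤ K0 * (lw * Sq k y ^ M2) := by
        have : A2 * (A1 * lw) * Sq k y ^ M2 = (A2 * A1) * (lw * Sq k y ^ M2) := by ring
        rw [this]
        exact mul_le_mul_of_nonneg_right hK0'' hlS
      have h12 : 2 * (a : ℝ) * (A1 * lw) ≤ (a * K1) * (lw * Sq k y ^ M2) := by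
        have h13 : lw ≤ lw * Sq k y ^ M2 := le_mul_of_one_le_right hlw0 hSM
        calc 2 * (a : ℝ) * (A1 * lw) = a * (2 * A1) * lw := by ring
          _ ≤ a * K1 * lw :=
            mul_le_mul_of_nonneg_right (mul_le_mul_of_nonneg_left hK1 ha) hlw0
          _ ≤ a * K1 * (lw * Sq k y ^ M2) :=
            mul_le_mul_of_nonneg_left h13 (mul_nonneg ha hK1')
      have h14 : 2 * (a : ℝ) * (y 0 - N 0) ≤ 2 * (a : ℝ) * (A1 * lw) :=
        mul_le_mul_of_nonneg_left h10 (mul_nonneg two_pos.le ha)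
      generalize aeval y (dsum L) = P1 at *
      generalize lw * Sq k y ^ M2 = P2 at *
      generalize A2 * (A1 * lw) * Sq k y ^ M2 = P3 at *
      generalize A1 * lw = P4 at *
      nlinarith
  · -- a solution
    rintro ⟨x, hx0, hx⟩
    let e := Fintype.equivFin ((i : Fin k) × Fin (x i))
    let v : Fin (Fintype.card ((i : Fin k) × Fin (x i))) → ℝ := fun j => (((e.symm j).1 : ℕ) + 1 : ℕ)
    refine ⟨_, v, ?_⟩
    rw [hval]
    have hsum : ∀ f : ℝ → ℝ, ∑ j, f (v j) = ∑ i : Fin k, x i * f (((i : ℕ) + 1 : ℕ) : ℝ) := by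
      intro f
      have h1 : ∑ j, f (v j) = ∑ p : (i : Fin k) × Fin (x i), f (((p.1 : ℕ) + 1 : ℕ) : ℝ) :=
        Equiv.sum_comp e.symm (fun p : (i : Fin k) × Fin (x i) => f (((p.1 : ℕ) + 1 : ℕ) : ℝ))
      rw [h1, Fintype.sum_sigma]
      refine Finset.sum_congr rfl fun i _ => ?_
      simp
    have h1 : trunc Lw _ v = 0 := by
      rw [hLw, hsum (fun t => (w.map (algebraMap ℚ ℝ)).eval t)]
      refine Finset.sum_eq_zero fun i _ => ?_
      rw [hw, hq0 ((i : ℕ) + 1) (by have := i.2; omega)]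
      simp
    have h2 : ∀ i < k, trunc (nn i) _ v = x i := by
      intro i hi
      rw [hnn _ v i hi, hsum (fun t => ((r i).map (algebraMap ℚ ℝ)).eval t)]
      have h3 : ∀ i' : Fin k, ((r i).map (algebraMap ℚ ℝ)).eval (((i' : ℕ) + 1 : ℕ) : ℝ) =
          if (i' : ℕ) = i then 1 else 0 := by
        intro i'
        have h4 := hr0 i hi ((i' : ℕ) + 1) (by have := i'.2; omega)
        have h5 : ((r i).map (algebraMap ℚ ℝ)).eval (((i' : ℕ) + 1 : ℕ) : ℝ) =
            algebraMap ℚ ℝ ((r i).eval (((i' : ℕ) + 1 : ℕ) : ℚ)) := by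
          exact eval_natCast_map' (r i) _
        rw [h5, h4]
        simp
      simp only [h3]
      rw [Finset.sum_eq_single (⟨i, hi⟩ : Fin k)]
      · simp
      · intro b _ hb
        rw [if_neg (fun h => hb (Fin.ext h))]
        simp
      · simp
    have h4 : aeval (fun i => trunc (nn i) _ v) (dsum L) = 0 := by
      have h5 : ∀ c ∈ L, aeval (fun i => trunc (nn i) _ v) (defect c) = 0 := by
        intro c hc
        have hb := hL c hc
        have hh := hx c hc
        cases c with
        | add i j l =>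
          simp only [defect, map_add, map_sub, aeval_X, h2 i hb.1, h2 j hb.2.1, h2 l hb.2.2]
          have : x i + x j = x l := hh
          rw [← this]
          push_cast
          ring
        | one i =>
          simp only [defect, map_sub, map_one, aeval_X, h2 i hb]
          have : x i = 1 := hh
          rw [this]
          simp
        | mul i j l =>
          simp only [defect, map_mul, map_sub, aeval_X, h2 i hb.1, h2 j hb.2.1, h2 l hb.2.2]
          have : x i * x j = x l := hh
          rw [← this]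
          push_cast
          ring
      exact dsum_zero L _ h5
    rw [h4, h1, h2 0 (by omega), hx0]
    ring

end Pool.Agent.R569.SF
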