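import Pool.Agent.R569.SF.Main
import Pool.Agent.R569.Halt

/-!
# Undecidability of any-dimensional non-negativity and positivity
-/

set_option autoImplicit false

namespace Pool.Agent.R569.SF

open MvPolynomial Pool.Agent.H761R3.Sys

theorem exists_fam : ∃ A B : Inst, ∀ a : ℕ,
    (¬ haltS a → ∀ (n : ℕ) (x : Fin n → ℝ), 1 / 2 ≤ trunc (poly (fam A B a)) n x) ∧
    (haltS a → ∃ (n : ℕ) (x : Fin n → ℝ), trunc (poly (fam A B a)) n x = -(1 / 2)) := by
  obtain ⟨k, L, hk, hL, h⟩ := exists_sys haltS haltS_re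
  obtain ⟨A, B, hAB⟩ := reduction k L hk hL
  obtain ⟨A', rfl⟩ := poly_surj A
  obtain ⟨B', rfl⟩ := poly_surj B
  refine ⟨A', B', fun a => ?_⟩
  rw [poly_fam, h a]
  exact hAB a

/-- a function with a negative value is not any-dimensional positive -/
theorem not_pos_of_neg {g : MvPolynomial ℕ ℚ} {n : ℕ} {x : Fin n → ℝ} (h : trunc g n x < 0) :
    ¬ Pos g := by
  rintro ⟨h1, h2⟩
  by_cases hg : Homog g
  · by_cases hx : x = 0
    · subst hx
      have h3 := h2 hg
      obtain ⟨d, hd⟩ := hg
      have h0 : ∀ (m : ℕ), trunc g m 0 = trunc g n 0 := by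
        intro m
        unfold trunc
        congr 2
        funext k
        simp
      have h4 : d = 0 := by
        by_contra hd0
        have h5 := hd n 0 0
        rw [smul_zero, zero_pow hd0, zero_mul] at h5
        rw [h5] at h
        exact lt_irrefl _ h
      subst h4
      have h5 := hd 1 (fun _ => 1) 0
      rw [zero_smul, pow_zero, one_mul, h0] at h5
      have h6 := h3 1 (fun _ => 1) (fun h => by simpa using congrFun h 0)
      rw [← h5] at h6
      exact lt_irrefl _ (h.trans h6)
    · exact lt_irrefl _ (h.trans (h2 hg n x hx))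
  · exact lt_irrefl _ (h.trans (h1 hg n x))

theorem pos_of_pos {g : MvPolynomial ℕ ℚ} (h : ∀ (n : ℕ) (x : Fin n → ℝ), 0 < trunc g n x) :
    Pos g := ⟨fun _ => h, fun _ n x _ => h n x⟩

end Pool.Agent.R569.SF
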